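import Mathlib

set_option autoImplicit false

namespace Pool.Agent.H.MP_8a557e_co

open Finset

def bz (b : Bool) : ℤ := if b then 1 else 0

@[simp] lemma bz_true : bz true = 1 := rfl
@[simp] lemma bz_false : bz false = 0 := rfl
lemma bz_nonneg (b : Bool) : 0 ≤ bz b := by cases b <;> simp
lemma bz_decide (p : Prop) [Decidable p] : bz (decide p) = if p then 1 else 0 := by
  by_cases h : p <;> simp [h]

def tz {R : Type} (x : R → Bool) : R → ℤ := fun r => bz (x r)

lemma bash : ∀ (β γ u u0 a b c d e f g h : Bool), bz a + bz b = (if u = true then 1 else 0) →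
    bz c + bz d = (if u = false then 1 else 0) → bz e + bz f = (if u0 = true then 1 else 0) →
    bz g + bz h = (if u0 = false then 1 else 0) → bz a + bz c = bz e + bz g →
    (cond β (cond γ a b) (cond γ c d)) = ((u == β) && ((cond u0 e g) == γ)) := by
  decide +kernel

def Wtd {R : Type} [Fintype R] (f : (R → Bool) → Bool) : Prop :=
  ∃ (w : R → ℝ) (q : ℝ), ∀ x, f x = true ↔ q ≤ ∑ i, w i * (if x i then 1 else 0)

def Trade {R : Type} (f : (R → Bool) → Bool) (j : ℕ) : Prop :=
  ∃ X Y : Fin j → R → Bool, (∀ a, f (X a) = true) ∧ (∀ a, f (Y a) = false) ∧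
    ∀ i, ∑ a, (if X a i then 1 else 0 : ℤ) = ∑ a, (if Y a i then 1 else 0 : ℤ)

lemma squeeze {j : ℕ} (u v : Fin j → ℤ) (c : ℤ) (hu : ∀ a, c ≤ u a) (hv : ∀ a, v a ≤ c)
    (h : ∑ a, u a = ∑ a, v a) : (∀ a, u a = c) ∧ ∀ a, v a = c := by
  have h1 : ∑ a, (u a - v a) = 0 := by rw [Finset.sum_sub_distrib, h, sub_self]
  have h2 := (Finset.sum_eq_zero_iff_of_nonneg (fun a _ => by
    have := hu a; have := hv a; omega)).mp h1
  constructor <;> intro a <;> have := h2 a (mem_univ a) <;> have := hu a <;> have := hv a <;> omega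

lemma generic {R L : Type} [Fintype R] (M : L → R → ℤ) (T : Finset (R → ℤ))
    (hT : ∀ x ∈ T, ∃ (ψ : (R → ℤ) →+ ℤ) (b : ℤ), (∀ l, ψ (M l) = b) ∧ ψ x ≠ b) :
    ∃ (ψ : (R → ℤ) →+ ℤ) (b : ℤ), (∀ l, ψ (M l) = b) ∧ ∀ x ∈ T, ψ x ≠ b := by
  classical
  induction T using Finset.induction_on with
  | empty => exact ⟨0, 0, fun _ => rfl, by simp⟩
  | insert x T _ ih =>
    obtain ⟨ψ, b, h1, h2⟩ := ih (fun y hy => hT y (mem_insert_of_mem hy))
    by_cases hx : ψ x = b
    · obtain ⟨φ, c, h3, h4⟩ := hT x (mem_insert_self _ _)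
      set N : ℤ := 1 + ∑ y ∈ T, |φ y - c| with hN
      refine ⟨N • ψ + φ, N * b + c, fun l => by simp [h1, h3], ?_⟩
      intro y hy
      simp only [AddMonoidHom.add_apply, AddMonoidHom.smul_apply, smul_eq_mul]
      rcases mem_insert.mp hy with rfl | hy
      · rw [hx]; simpa using h4
      · intro e
        have e1 : |φ y - c| ≤ ∑ y ∈ T, |φ y - c| :=
          Finset.single_le_sum (f := fun y => |φ y - c|) (fun _ _ => abs_nonneg _) hy
        have e2 : φ y - c = -(N * (ψ y - b)) := by linarith
        have e3 : 1 ≤ |ψ y - b| := Int.one_le_abs (sub_ne_zero.mpr (h2 y hy))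
        have e0 : 0 ≤ ∑ y ∈ T, |φ y - c| := Finset.sum_nonneg (fun _ _ => abs_nonneg _)
        rw [e2, abs_neg, abs_mul, abs_of_nonneg (by omega : 0 ≤ N)] at e1
        nlinarith
    · refine ⟨ψ, b, h1, fun y hy => ?_⟩
      rcases mem_insert.mp hy with rfl | hy
      · exact hx
      · exact h2 y hy

lemma L1 {R L : Type} [Fintype R] (C : L → R → Bool) (hinj : Function.Injective C) (tr : L → Bool)
    (h : ℤ) (hw : ∀ l, ∑ r, tz (C l) r = h)
    (hB : ∀ x : R → Bool, (∀ (ψ : (R → ℤ) →+ ℤ) (b : ℤ), (∀ l, ψ (tz (C l)) = b) → ψ (tz x) = b) →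
      ∃ l, x = C l) :
    ∃ f : (R → Bool) → Bool, Monotone f ∧ (∀ l, f (C l) = tr l) ∧
      ∀ (j : ℕ) (X Y : Fin j → R → Bool), (∀ a, f (X a) = true) → (∀ a, f (Y a) = false) →
        (∀ i, ∑ a, tz (X a) i = ∑ a, tz (Y a) i) → (∀ a, ∃ l, X a = C l) ∧ ∀ a, ∃ l, Y a = C l := by
  classical
  obtain ⟨ψ, b, h1, h2⟩ := generic (fun l => tz (C l))
    ((univ.filter (fun x : R → Bool => ¬ ∃ l, x = C l)).image tz) (by
      intro y hy
      obtain ⟨x, hx, rfl⟩ := mem_image.mp hy
      by_contra hc
      push Not at hc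
      exact (mem_filter.mp hx).2 (hB x hc))
  have h3 : ∀ x : R → Bool, ψ (tz x) = b → ∃ l, x = C l := by
    intro x hx
    by_contra hc
    exact h2 _ (mem_image_of_mem _ (mem_filter.mpr ⟨mem_univ _, hc⟩)) hx
  refine ⟨fun x => decide (h < ∑ r, tz x r ∨ (∑ r, tz x r = h ∧
    (b < ψ (tz x) ∨ ∃ l, tr l = true ∧ x = C l))), ?_, ?_, ?_⟩
  · intro x y hxy
    by_cases e : x = y
    · rw [e]
    have hlt : ∑ r, tz x r < ∑ r, tz y r := by
      have hle : ∀ r, tz x r ≤ tz y r := by
        intro r
        have : x r ≤ y r := hxy r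
        exact (by decide : ∀ a b : Bool, a ≤ b → bz a ≤ bz b) _ _ this
      obtain ⟨r, hr⟩ := Function.ne_iff.mp e
      refine Finset.sum_lt_sum (fun r _ => hle r) ⟨r, mem_univ _, ?_⟩
      have : x r ≤ y r := hxy r
      exact (by decide : ∀ a b : Bool, a ≠ b → a ≤ b → bz a < bz b) _ _ hr this
    rw [Bool.le_iff_imp]
    simp only [decide_eq_true_eq]
    rintro (h4 | h4)
    · left; omega
    · left; omega
  · intro l
    simp only [hw, h1, lt_irrefl, false_or, true_and]
    cases e : tr l
    · simp only [decide_eq_false_iff_not, not_exists, not_and]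
      intro l' h4 h5
      rw [← hinj h5, e] at h4
      exact absurd h4 (by decide)
    · simp only [decide_eq_true_eq]
      exact ⟨l, e, rfl⟩
  · intro j X Y hX hY hs
    simp only [decide_eq_true_eq, decide_eq_false_iff_not, not_or, not_and, not_lt] at hX hY
    obtain ⟨s1, s2⟩ := squeeze (fun a => ∑ r, tz (X a) r) (fun a => ∑ r, tz (Y a) r) h
      (fun a => by rcases hX a with h4 | h4 <;> omega) (fun a => (hY a).1) (by
        rw [Finset.sum_comm, Finset.sum_comm (f := fun a r => tz (Y a) r)]
        exact Finset.sum_congr rfl (fun i _ => hs i))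
    obtain ⟨s3, s4⟩ := squeeze (fun a => ψ (tz (X a))) (fun a => ψ (tz (Y a))) b
      (fun a => by
        rcases hX a with h4 | ⟨_, h4 | ⟨l, _, h4⟩⟩
        · have := s1 a; omega
        · exact h4.le
        · simp only [h4, h1, le_refl])
      (fun a => ((hY a).2 (s2 a)).1) (by
        rw [← map_sum, ← map_sum]
        congr 1
        funext i
        simp only [Finset.sum_apply]
        exact hs i)
    exact ⟨fun a => h3 _ (s3 a), fun a => h3 _ (s4 a)⟩

def ev {R : Type} (r : R) : (R → ℤ) →+ ℤ := Pi.evalAddMonoidHom (fun _ => ℤ) r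

@[simp] lemma ev_apply {R : Type} (r : R) (x : R → ℤ) : ev r x = x r := rfl

/-- base rows -/
def base {N J : Type} [DecidableEq N] (U : J → N → Bool) (l : N × Bool) :
    N ⊕ (J × Bool × Bool) → Bool
  | Sum.inl t => decide (l.1 = t)
  | Sum.inr (j, β, γ) => (U j l.1 == β) && (l.2 == γ)

def col {N J : Type} [DecidableEq N] (U : J → N → Bool) (l : N × Bool)
    (r : (N ⊕ (J × Bool × Bool)) × Bool) : Bool := base U l r.1 == r.2

lemma L2 {N J : Type} [Fintype N] [Fintype J] [DecidableEq N] [DecidableEq J] (j0 : J)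
    (U : J → N → Bool) (s : N → Bool) (lam : N → ℤ) (hl : ∀ t, 0 ≤ lam t) (t0 : N) (hl0 : 0 < lam t0)
    (hbal : ∀ j β, ∑ t, (if U j t = β then (if s t then lam t else - lam t) else 0) = 0) (K : ℤ)
    (hK : ∀ c : N → ℤ, (∀ t, 0 ≤ c t) → 0 < ∑ t, c t →
      (∀ j, ∑ t, (if U j t then (if s t then c t else - c t) else 0) = 0) → K ≤ ∑ t, c t) :
    ∃ f : ((N ⊕ (J × Bool × Bool)) × Bool → Bool) → Bool, Monotone f ∧ ¬ Wtd f ∧
      ∀ j : ℕ, 0 < j → Trade f j → K ≤ j := by
  classical
  have hinj : Function.Injective (col U) := by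
    rintro ⟨t, b⟩ ⟨t', b'⟩ h
    have h1 := congrFun h (Sum.inl t, true)
    simp [col, base] at h1
    subst h1
    have h2 := congrFun h (Sum.inr (j0, U j0 t', b), true)
    simp [col, base] at h2
    rw [h2]
  obtain ⟨f, hm, hf, ht⟩ := L1 (col U) hinj (fun l => l.2 == s l.1)
    (Fintype.card (N ⊕ (J × Bool × Bool))) (by
      intro l
      rw [Fintype.sum_prod_type]
      have : ∀ r, ∑ b : Bool, tz (col U l) (r, b) = 1 := by
        intro r
        simp only [Fintype.sum_bool, tz, col]
        cases base U l r <;> simp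
      simp only [this]; simp) (by
      intro x hx
      have e1 : ∑ t, tz x (Sum.inl t, true) = 1 := by
        have := hx (∑ t, ev (Sum.inl t, true)) 1 (fun l => by
          simp [AddMonoidHom.finsetSum_apply, tz, col, base, bz_decide])
        simpa [AddMonoidHom.finsetSum_apply] using this
      have e2 : ∀ r, tz x (r, false) + tz x (r, true) = 1 := by
        intro r
        have := hx (ev (r, false) + ev (r, true)) 1 (fun l => by
          simp only [AddMonoidHom.add_apply, ev_apply, tz, col]
          cases base U l r <;> simp)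
        simpa using this
      have e3 : ∀ j β, tz x (Sum.inr (j, β, true), true) + tz x (Sum.inr (j, β, false), true) =
          ∑ t, if U j t = β then tz x (Sum.inl t, true) else 0 := by
        intro j β
        have := hx (ev (Sum.inr (j, β, true), true) + ev (Sum.inr (j, β, false), true) -
          ∑ t, if U j t = β then ev (Sum.inl t, true) else 0) 0 (fun l => by
          obtain ⟨t, b⟩ := l
          simp only [AddMonoidHom.sub_apply, AddMonoidHom.add_apply, ev_apply,
            AddMonoidHom.finsetSum_apply]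
          rw [Finset.sum_eq_single t]
          · simp only [tz, col, base]
            cases U j t <;> cases β <;> cases b <;> simp [tz, col, base]
          · intro t' _ h
            split_ifs <;> simp [tz, col, base, Ne.symm h]
          · simp)
        simp only [AddMonoidHom.sub_apply, AddMonoidHom.add_apply, ev_apply,
          AddMonoidHom.finsetSum_apply] at this
        rw [sub_eq_zero.mp this]
        refine Finset.sum_congr rfl (fun t _ => ?_)
        split_ifs <;> simp
      have e4 : ∀ j, tz x (Sum.inr (j, true, true), true) + tz x (Sum.inr (j, false, true), true) =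
          tz x (Sum.inr (j0, true, true), true) + tz x (Sum.inr (j0, false, true), true) := by
        intro j
        have := hx (ev (Sum.inr (j, true, true), true) + ev (Sum.inr (j, false, true), true) -
          (ev (Sum.inr (j0, true, true), true) + ev (Sum.inr (j0, false, true), true))) 0 (fun l => by
          obtain ⟨t, b⟩ := l
          simp only [AddMonoidHom.sub_apply, AddMonoidHom.add_apply, ev_apply, tz, col, base]
          cases U j t <;> cases U j0 t <;> cases b <;> simp)
        simp only [AddMonoidHom.sub_apply, AddMonoidHom.add_apply, ev_apply] at this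
        linarith
      have hex : ∃ t, x (Sum.inl t, true) = true := by
        by_contra hc
        push Not at hc
        simp [tz, hc] at e1
      obtain ⟨t, ht⟩ := hex
      have hoth : ∀ t', t' ≠ t → x (Sum.inl t', true) = false := by
        intro t' h
        by_contra hc
        have hc' : x (Sum.inl t', true) = true := by simpa using hc
        have := Finset.sum_le_sum_of_subset_of_nonneg (f := fun t => tz x (Sum.inl t, true))
          (Finset.subset_univ {t', t}) (fun i _ _ => bz_nonneg _)
        rw [Finset.sum_pair h, e1] at this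
        simp [tz, ht, hc'] at this
      have e5 : ∀ j β, tz x (Sum.inr (j, β, true), true) + tz x (Sum.inr (j, β, false), true) =
          if U j t = β then 1 else 0 := by
        intro j β
        rw [e3, Finset.sum_eq_single t]
        · simp [tz, ht]
        · intro t' _ h; simp [tz, hoth t' h]
        · simp
      refine ⟨(t, x (Sum.inr (j0, U j0 t, true), true)), ?_⟩
      have hT : ∀ r, x (r, true) = base U (t, x (Sum.inr (j0, U j0 t, true), true)) r := by
        rintro (t' | ⟨j, β, γ⟩)
        · by_cases h : t' = t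
          · simp [base, h, ht]
          · simp [base, hoth t' h, Ne.symm h]
        · have a1 := e5 j true
          have a2 := e5 j false
          have a3 := e5 j0 true
          have a4 := e5 j0 false
          have a5 := e4 j
          have := bash β γ _ _ _ _ _ _ _ _ _ _ a1 a2 a3 a4 a5
          simp only [base]
          revert this
          cases β <;> cases γ <;> cases U j0 t <;> exact id
      funext ⟨r, b⟩
      have a := e2 r
      unfold col
      simp only [← hT r]
      unfold tz at a
      revert a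
      cases b <;> cases x (r, true) <;> cases x (r, false) <;> decide)
  refine ⟨f, hm, ?_, ?_⟩
  · rintro ⟨w, q, hw⟩
    have hrow : ∀ r, ∑ t, lam t * (tz (col U (t, s t)) r - tz (col U (t, !s t)) r) = 0 := by
      rintro ⟨t' | ⟨j, β, γ⟩, b⟩
      · simp [tz, col, base]
      · have := hbal j β
        have e : ∀ t, lam t * (tz (col U (t, s t)) (Sum.inr (j, β, γ), b) -
            tz (col U (t, !s t)) (Sum.inr (j, β, γ), b)) = (if γ = b then 1 else -1) *
            (if U j t = β then (if s t then lam t else - lam t) else 0) := by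
          intro t
          simp only [tz, col, base]
          cases U j t <;> cases s t <;> cases β <;> cases γ <;> cases b <;> simp
        simp only [e]
        rw [← Finset.mul_sum, this, mul_zero]
    have hpos : ∀ t, 0 < ∑ r, w r * ((tz (col U (t, s t)) r : ℝ) - (tz (col U (t, !s t)) r : ℝ)) := by
      intro t
      have a1 := (hw (col U (t, s t))).mp (by rw [hf]; simp)
      have a2 := (hw (col U (t, !s t))).not.mp (by rw [hf]; cases s t <;> simp)
      simp only [mul_sub, Finset.sum_sub_distrib, tz, bz, Int.cast_ite, Int.cast_one, Int.cast_zero]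
      linarith [not_le.mp a2]
    have h1 : 0 < ∑ t, (lam t : ℝ) *
        ∑ r, w r * ((tz (col U (t, s t)) r : ℝ) - (tz (col U (t, !s t)) r : ℝ)) :=
      Finset.sum_pos' (fun t _ => mul_nonneg (by exact_mod_cast hl t) (hpos t).le)
        ⟨t0, mem_univ _, mul_pos (by exact_mod_cast hl0) (hpos t0)⟩
    simp only [Finset.mul_sum] at h1
    rw [Finset.sum_comm] at h1
    refine h1.ne' (Finset.sum_eq_zero (fun r _ => ?_))
    have := congrArg (fun z : ℤ => w r * (z : ℝ)) (hrow r)
    simp only [Int.cast_sum, Int.cast_mul, Int.cast_sub, Int.cast_zero, mul_zero,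
      Finset.mul_sum] at this
    rw [← this]
    exact Finset.sum_congr rfl (fun t _ => by ring)
  · rintro j hj ⟨X, Y, hX, hY, hs⟩
    obtain ⟨h1, h2⟩ := ht j X Y hX hY hs
    choose lx hlx using h1
    choose ly hly using h2
    have bx : ∀ a, (lx a).2 = s (lx a).1 := fun a => by
      have := hX a; rw [hlx, hf] at this; simpa using this
    have by' : ∀ a, (ly a).2 = !s (ly a).1 := fun a => by
      have := hY a; rw [hly, hf] at this
      revert this; cases (ly a).2 <;> cases s (ly a).1 <;> simp
    set c : N → ℤ := fun t => ∑ a, if (lx a).1 = t then 1 else 0 with hc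
    have hc' : ∀ t, c t = ∑ a, if (ly a).1 = t then 1 else 0 := by
      intro t
      have := hs (Sum.inl t, true)
      simpa only [hc, hlx, hly, col, base, beq_true, decide_eq_true_eq] using this
    have hsum : ∑ t, c t = j := by
      simp only [hc]
      rw [Finset.sum_comm]; simp
    have gx : ∀ g : N → ℤ, ∑ t, g t * c t = ∑ a, g (lx a).1 := by
      intro g
      simp only [hc, Finset.mul_sum]
      rw [Finset.sum_comm]; simp
    have gy : ∀ g : N → ℤ, ∑ t, g t * c t = ∑ a, g (ly a).1 := by
      intro g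
      simp only [hc', Finset.mul_sum]
      rw [Finset.sum_comm]; simp
    rw [← hsum]
    refine hK c (fun t => Finset.sum_nonneg (fun a _ => by split_ifs <;> simp))
      (by rw [hsum]; exact_mod_cast hj) (fun i => ?_)
    have a1 := gx (fun t => bz (U i t && s t))
    have a2 := gy (fun t => bz (U i t && !s t))
    have a3 : ∑ a, bz (X a (Sum.inr (i, true, true), true)) =
      ∑ a, bz (Y a (Sum.inr (i, true, true), true)) := hs _
    simp only [hlx, hly, col, base, bx, by', beq_true] at a3
    rw [← a1, ← a2, ← sub_eq_zero, ← Finset.sum_sub_distrib] at a3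
    refine Eq.trans (Finset.sum_congr rfl (fun t _ => ?_)) a3
    cases U i t <;> cases s t <;> simp

lemma L3 {V Rel : Type} [Fintype V] [Fintype Rel] [DecidableEq V] [DecidableEq Rel]
    (A : Rel → V → ℤ) (hA : ∀ r v, A r v = 0 ∨ A r v = 1 ∨ A r v = -1) (lam : V → ℤ) (v0 : V)
    (h0 : lam v0 ≠ 0) (hk : ∀ r, ∑ v, A r v * lam v = 0) (K : ℤ)
    (hK : ∀ c : V → ℤ, c ≠ 0 → (∀ r, ∑ v, A r v * c v = 0) → K ≤ ∑ v, |c v|) :
    ∃ f : (((V × Bool) ⊕ ((V ⊕ Rel) × Bool × Bool)) × Bool → Bool) → Bool, Monotone f ∧ ¬ Wtd f ∧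
      ∀ j : ℕ, 0 < j → Trade f j → K ≤ j := by
  classical
  let ε : V → ℤ := fun v => if 0 ≤ lam v then 1 else -1
  have hε : ∀ v, ε v = 1 ∨ ε v = -1 := fun v => by simp only [ε]; split_ifs <;> simp
  have hεl : ∀ v, ε v * |lam v| = lam v := fun v => by
    simp only [ε]
    split_ifs with h
    · rw [abs_of_nonneg h, one_mul]
    · rw [abs_of_neg (not_le.mp h)]; ring
  let U : V ⊕ Rel → V × Bool → Bool := fun j t => match j with
    | Sum.inl v => decide (t.1 = v)
    | Sum.inr r => decide (A r t.1 * ε t.1 = if t.2 then 1 else -1)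
  have key : ∀ (c : V × Bool → ℤ), (∀ v, c (v, false) = c (v, true)) → ∀ r,
      ∑ t, (if U (Sum.inr r) t = true then (if t.2 then c t else - c t) else 0) =
        ∑ v, A r v * (ε v * c (v, true)) := by
    intro c hc r
    rw [Fintype.sum_prod_type]
    refine Finset.sum_congr rfl (fun v _ => ?_)
    simp only [Fintype.sum_bool, U, hc]
    rcases hA r v with h | h | h <;> rcases hε v with h' | h' <;> simp [h, h']
  refine L2 (Sum.inl v0) U (fun t => t.2) (fun t => |lam t.1|) (fun t => abs_nonneg _) (v0, true)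
    (abs_pos.mpr h0) ?_ K ?_
  · have tot : ∀ j, ∑ t : V × Bool, (if U j t = false then (if t.2 then |lam t.1| else - |lam t.1|) else 0) =
        - ∑ t : V × Bool, (if U j t = true then (if t.2 then |lam t.1| else - |lam t.1|) else 0) := by
      intro j
      rw [eq_neg_iff_add_eq_zero, ← Finset.sum_add_distrib, Fintype.sum_prod_type]
      refine Finset.sum_eq_zero (fun v _ => ?_)
      simp only [Fintype.sum_bool]
      cases U j (v, true) <;> cases U j (v, false) <;> simp
    have tr : ∀ j, ∑ t : V × Bool, (if U j t = true then (if t.2 then |lam t.1| else - |lam t.1|) else 0) = 0 := by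
      rintro (v | r)
      · rw [Fintype.sum_prod_type]
        refine Finset.sum_eq_zero (fun v' _ => ?_)
        simp only [Fintype.sum_bool, U]
        by_cases h : v' = v <;> simp [h]
      · rw [key (fun t => |lam t.1|) (fun _ => rfl) r]
        simp only [hεl, hk]
    intro j β
    cases β
    · rw [tot, tr, neg_zero]
    · exact tr j
  · intro c hc hpos hb
    have e : ∀ v, c (v, false) = c (v, true) := by
      intro v
      have := hb (Sum.inl v)
      rw [Fintype.sum_prod_type, Finset.sum_eq_single v] at this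
      · simp [U] at this; linarith
      · intro v' _ h; simp [U, h]
      · simp
    have e2 : ∑ t, c t = 2 * ∑ v, c (v, true) := by
      rw [Fintype.sum_prod_type, Finset.mul_sum]
      exact Finset.sum_congr rfl (fun v _ => by simp only [Fintype.sum_bool, e]; ring)
    have e3 : ∀ v, |ε v * c (v, true)| = c (v, true) := fun v => by
      rcases hε v with h | h <;> simp [h, abs_of_nonneg (hc (v, true))]
    have := hK (fun v => ε v * c (v, true)) (fun h => by
      have : ∀ v, c (v, true) = 0 := fun v => by rw [← e3, congrFun h v]; simp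
      simp [e2, this] at hpos) (fun r => by rw [← key c e r]; exact hb (Sum.inr r))
    simp only [e3] at this
    linarith

def had {s : ℕ} (a b : Fin s → Bool) : ℤ := ∏ i, if a i && b i then -1 else 1

lemma had_pm {s : ℕ} (a b : Fin s → Bool) : had a b = 1 ∨ had a b = -1 := by
  unfold had
  refine Finset.prod_induction _ (fun z : ℤ => z = 1 ∨ z = -1) ?_ (Or.inl rfl) ?_
  · rintro x y (rfl | rfl) (rfl | rfl) <;> simp
  · intro i _; split_ifs <;> simp

lemma had_mul {s : ℕ} (a c : Fin s → Bool) :
    ∑ b, had a b * had b c = if a = c then 2 ^ s else 0 := by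
  unfold had
  simp only [← Finset.prod_mul_distrib]
  have := Finset.prod_univ_sum (fun _ : Fin s => (univ : Finset Bool))
    (fun i β => (if a i && β then (-1 : ℤ) else 1) * (if β && c i then -1 else 1))
  rw [Fintype.piFinset_univ] at this
  rw [← this]
  split_ifs with h
  · subst h
    rw [Finset.prod_congr rfl (g := fun _ => (2 : ℤ)) (fun i _ => by cases a i <;> simp)]
    simp
  · obtain ⟨i, hi⟩ := Function.ne_iff.mp h
    refine Finset.prod_eq_zero (mem_univ i) ?_
    revert hi
    cases a i <;> cases c i <;> simp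

lemma L4 (s : ℕ) : ∃ (R : Type) (_ : Fintype R) (f : (R → Bool) → Bool),
    Fintype.card R = 40 * 2 ^ s ∧ Monotone f ∧ ¬ Wtd f ∧
      ∀ j : ℕ, 0 < j → Trade f j → (2 ^ s) ^ (2 ^ s - 1) ≤ j := by
  classical
  obtain ⟨n, hn⟩ : ∃ n, 2 ^ s = n + 1 := ⟨2 ^ s - 1, by have := Nat.one_le_two_pow (n := s); omega⟩
  have hc : Fintype.card (Fin s → Bool) = n + 1 := by simp [hn]
  let e : Fin (n + 1) ≃ (Fin s → Bool) := (Fintype.equivFinOfCardEq hc).symm
  let H : Fin (n + 1) → Fin (n + 1) → ℤ := fun a b => had (e a) (e b)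
  have hH : ∀ (x : Fin (n + 1) → ℤ) a, ∑ b, H a b * ∑ c, H b c * x c = (n + 1) * x a := by
    intro x a
    simp only [Finset.mul_sum, ← mul_assoc]
    rw [Finset.sum_comm]
    have : ∀ c, ∑ b, H a b * H b c * x c = if a = c then ((n : ℤ) + 1) * x c else 0 := by
      intro c
      rw [← Finset.sum_mul]
      have := had_mul (e a) (e c)
      rw [← e.sum_comp] at this
      simp only [H]
      rw [this]
      have h2 : (2 : ℤ) ^ s = n + 1 := by exact_mod_cast hn
      simp [h2]
    simp [this]
  let A : Fin (n + 1) ⊕ Fin (n + 1) → Fin (n + 1) ⊕ Fin (n + 1) → ℤ := fun r v => match r, v with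
    | Sum.inl a, Sum.inl b => H a b
    | Sum.inl a, Sum.inr b => if b = a then -1 else 0
    | Sum.inr a, Sum.inl b => if (b : ℕ) = a + 1 then -1 else 0
    | Sum.inr a, Sum.inr b => if (a : ℕ) < n then H a b else 0
  have s1 : ∀ (c : Fin (n + 1) ⊕ Fin (n + 1) → ℤ) a, ∑ v, A (Sum.inl a) v * c v =
      ∑ b, H a b * c (Sum.inl b) - c (Sum.inr a) := by
    intro c a
    rw [Fintype.sum_sum_type]
    simp [A, sub_eq_add_neg]
  have s2 : ∀ (c : Fin (n + 1) ⊕ Fin (n + 1) → ℤ) (a : Fin (n + 1)) (h : (a : ℕ) < n),
      ∑ v, A (Sum.inr a) v * c v = ∑ b, H a b * c (Sum.inr b) - c (Sum.inl ⟨a + 1, by omega⟩) := by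
    intro c a h
    rw [Fintype.sum_sum_type, Finset.sum_eq_single (⟨a + 1, by omega⟩ : Fin (n + 1))]
    · simp [A, h]; ring
    · intro b _ hb
      have : (b : ℕ) ≠ a + 1 := fun e => hb (Fin.ext e)
      simp [A, this]
    · simp
  have s3 : ∀ (c : Fin (n + 1) ⊕ Fin (n + 1) → ℤ) (a : Fin (n + 1)) (h : ¬ (a : ℕ) < n),
      ∑ v, A (Sum.inr a) v * c v = 0 := by
    intro c a h
    refine Finset.sum_eq_zero ?_
    rintro (b | b) _
    · have : (b : ℕ) ≠ a + 1 := by omega
      simp [A, this]
    · simp [A, h]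
  obtain ⟨f, h1, h2, h3⟩ := L3 A (by
      rintro (a | a) (b | b) <;> simp only [A]
      · exact Or.inr (had_pm _ _)
      · split_ifs <;> simp
      · split_ifs <;> simp
      · split_ifs
        · exact Or.inr (had_pm _ _)
        · simp)
    (Sum.elim (fun a => ((n : ℤ) + 1) ^ (a : ℕ)) (fun a => ∑ b, H a b * ((n : ℤ) + 1) ^ (b : ℕ)))
    (Sum.inl 0) (by simp) (by
      rintro (a | a)
      · rw [s1]; simp
      · by_cases h : (a : ℕ) < n
        · rw [s2 _ a h]
          simp only [Sum.elim_inr, Sum.elim_inl]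
          rw [hH (fun b => ((n : ℤ) + 1) ^ (b : ℕ)) a]; ring
        · exact s3 _ a h) (((n : ℤ) + 1) ^ n) (by
      intro c hc0 hc
      have y : ∀ a, c (Sum.inr a) = ∑ b, H a b * c (Sum.inl b) := fun a => by
        have := hc (Sum.inl a); rw [s1] at this; linarith
      have x : ∀ (i : ℕ) (h : i < n + 1), c (Sum.inl ⟨i, h⟩) = ((n : ℤ) + 1) ^ i * c (Sum.inl 0) := by
        intro i
        induction i with
        | zero => intro h; simp
        | succ i ih =>
          intro h
          have := hc (Sum.inr ⟨i, by omega⟩)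
          rw [s2 _ _ (by simp; omega)] at this
          simp only [y] at this
          rw [hH (fun b => c (Sum.inl b)), ih (by omega)] at this
          rw [pow_succ]; linarith
      have x0 : c (Sum.inl 0) ≠ 0 := by
        intro h
        apply hc0
        have : ∀ a, c (Sum.inl a) = 0 := fun a => by
          have := x a a.2; rw [h, mul_zero] at this; exact this
        funext v
        rcases v with a | a
        · exact this a
        · simp [y, this]
      have e1 := Finset.single_le_sum (f := fun v => |c v|) (fun v _ => abs_nonneg _)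
        (mem_univ (Sum.inl (⟨n, by omega⟩ : Fin (n + 1))))
      simp only [x n (by omega), abs_mul, abs_pow] at e1
      have e2 := Int.one_le_abs x0
      rw [abs_of_nonneg (by positivity : (0 : ℤ) ≤ n + 1)] at e1
      have e3 : (0 : ℤ) ≤ ((n : ℤ) + 1) ^ n := by positivity
      nlinarith)
  refine ⟨_, inferInstance, f, by simp [hn]; ring, h1, h2, fun j hj ht => ?_⟩
  rw [hn, Nat.add_sub_cancel]
  exact_mod_cast h3 j hj ht

lemma pad {R : Type} [Fintype R] (f : (R → Bool) → Bool) (n : ℕ) (hn : Fintype.card R ≤ n)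
    (h1 : Monotone f) (h2 : ¬ Wtd f) : ∃ g : (Fin n → Bool) → Bool, Monotone g ∧ ¬ Wtd g ∧
      ∀ j, Trade g j → Trade f j := by
  classical
  obtain ⟨e⟩ : Nonempty (R ↪ Fin n) := Function.Embedding.nonempty_of_card_le (by simpa using hn)
  refine ⟨fun x => f (fun r => x (e r)), fun x y h => h1 (fun r => h (e r)), ?_, ?_⟩
  · rintro ⟨w, q, hw⟩
    refine h2 ⟨fun r => w (e r), q, fun x => ?_⟩
    have := hw (Function.extend e x (fun _ => false))
    simp only [e.injective.extend_apply] at this
    rw [this]
    have e2 : ∑ i, w i * (if Function.extend e x (fun _ => false) i = true then (1 : ℝ) else 0) =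
        ∑ r, w (e r) * (if x r = true then 1 else 0) := by
      symm
      refine Finset.sum_of_injOn e e.injective.injOn (by simp) ?_ ?_
      · intro i _ hi
        rw [Function.extend_apply' _ _ _ (fun ⟨r, hr⟩ => hi ⟨r, by simp, hr⟩)]
        simp
      · intro r _
        rw [e.injective.extend_apply]
    rw [e2]
  · rintro j ⟨X, Y, a1, a2, a3⟩
    exact ⟨fun a r => X a (e r), fun a r => Y a (e r), a1, a2, fun r => a3 (e r)⟩

theorem lower (s n : ℕ) (hn : 40 * 2 ^ s ≤ n) : ∃ g : (Fin n → Bool) → Bool, Monotone g ∧ ¬ Wtd g ∧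
    ∀ j : ℕ, 0 < j → Trade g j → (2 ^ s) ^ (2 ^ s - 1) ≤ j := by
  obtain ⟨R, _, f, h0, h1, h2, h3⟩ := L4 s
  obtain ⟨g, g1, g2, g3⟩ := pad f n (h0 ▸ hn) h1 h2
  exact ⟨g, g1, g2, fun j hj ht => h3 j hj (g3 j ht)⟩

end Pool.Agent.H.MP_8a557e_co
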